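import Pool.Agent.H7.HD.Targets7
import Pool.Agent.H92.HD.DZ

/-!
# MP_e37c09_lc: module DP, the intersection of the closed cofinal sets is definable
-/

open Ordinal Cardinal Order Set
open scoped ZFSet

universe u

namespace Pool.Agent.H50.HD.DP

open _root_.HD
open Pool.Agent.H92.HD.DZ (rel1 rel2 rel3 dz_memk)

/-- closed cofinal subsets with prescribed suprema, at the level of sets -/
def MP (k : ZFSet.{u}) (RS RR RC : ZFSet.{u} → Prop)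
    (RP RQ RU RW : ZFSet.{u} → ZFSet.{u} → Prop)
    (R2 R3 RL : ZFSet.{u} → ZFSet.{u} → ZFSet.{u} → Prop) (n X : ZFSet.{u}) : Prop :=
  (∀ z ∈ X, z ∈ n) ∧ (∀ y ∈ n, ∃ z ∈ X, y ∈ z) ∧ (∀ y ∈ X, y ∈ k → ∀ z ∈ y, z ∈ X) ∧
  (∀ x ∈ n, RC x → (∀ y ∈ x, ∃ z ∈ X, y ∈ z ∧ z ∈ x) → x ∈ X) ∧
  (∀ t ∈ X, ∀ b ∈ t, RU b t → b ∈ X) ∧
  (∀ a ∈ X, RS a → ∃ t ∈ X, RP a t) ∧
  (∀ a ∈ X, RS a → ∀ i ∈ X, RQ a i → ∃ t ∈ X, R2 a i t) ∧
  (∀ a ∈ X, RS a → ∀ z ∈ X, z ∈ a → ∃ t ∈ X, R3 a z t) ∧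
  (∀ a ∈ X, RR a → ∀ z ∈ X, z ∈ a → RL a n z) ∧
  (∀ a ∈ X, RR a → RW a n ∧ ∀ y ∈ a, RL a n y → ∃ z ∈ X, z ∈ a ∧ ¬ z ∈ y)

theorem dz_MP (κ : Ordinal.{u}) {RS RR RC : ZFSet.{u} → Prop}
    {RP RQ RU RW : ZFSet.{u} → ZFSet.{u} → Prop}
    {R2 R3 RL : ZFSet.{u} → ZFSet.{u} → ZFSet.{u} → Prop}
    (hS : ∀ i, _root_.HD.DZ fun v => RS (v i))
    (hR : ∀ i, _root_.HD.DZ fun v => RR (v i))
    (hC : ∀ i, _root_.HD.DZ fun v => RC (v i))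
    (hP : ∀ i j, _root_.HD.DZ fun v => RP (v i) (v j))
    (hQ : ∀ i j, _root_.HD.DZ fun v => RQ (v i) (v j))
    (hU : ∀ i j, _root_.HD.DZ fun v => RU (v i) (v j))
    (hW : ∀ i j, _root_.HD.DZ fun v => RW (v i) (v j))
    (h2 : ∀ i j k, _root_.HD.DZ fun v => R2 (v i) (v j) (v k))
    (h3 : ∀ i j k, _root_.HD.DZ fun v => R3 (v i) (v j) (v k))
    (hL : ∀ i j k, _root_.HD.DZ fun v => RL (v i) (v j) (v k)) (i j : ℕ) :
    _root_.HD.DZ fun v => MP κ.toZFSet RS RR RC RP RQ RU RW R2 R3 RL (v i) (v j) := by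
  refine DZ.and ?_ (DZ.and ?_ (DZ.and ?_ (DZ.and ?_ (DZ.and ?_ (DZ.and ?_ (DZ.and ?_
    (DZ.and ?_ (DZ.and ?_ ?_))))))))
  · exact DZ.allMem j (DZ.mem 0 (i + 1))
  · exact DZ.allMem i (DZ.exMem (j + 1) (DZ.mem 1 0))
  · exact DZ.allMem j ((dz_memk κ 0).imp (DZ.allMem 0 (DZ.mem 0 (j + 2))))
  · exact DZ.allMem i ((hC 0).imp ((DZ.allMem 0 (DZ.exMem (j + 2)
      ((DZ.mem 1 0).and (DZ.mem 0 2)))).imp (DZ.mem 0 (j + 1))))
  · exact DZ.allMem j (DZ.allMem 0 ((hU 0 1).imp (DZ.mem 0 (j + 2))))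
  · exact DZ.allMem j ((hS 0).imp (DZ.exMem (j + 1) (hP 1 0)))
  · exact DZ.allMem j ((hS 0).imp (DZ.allMem (j + 1)
      ((hQ 1 0).imp (DZ.exMem (j + 2) (h2 2 1 0)))))
  · exact DZ.allMem j ((hS 0).imp (DZ.allMem (j + 1)
      ((DZ.mem 0 1).imp (DZ.exMem (j + 2) (h3 2 1 0)))))
  · exact DZ.allMem j ((hR 0).imp (DZ.allMem (j + 1)
      ((DZ.mem 0 1).imp (hL 1 (i + 2) 0))))
  · exact DZ.allMem j ((hR 0).imp ((hW 0 (i + 1)).and (DZ.allMem 0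
      ((hL 1 (i + 2) 0).imp (DZ.exMem (j + 2) ((DZ.mem 0 2).and (DZ.mem 0 1).not))))))

theorem key {κ : Ordinal.{u}} {μ : Cardinal.{u}} {p : Ordinal.{u} → Ordinal.{u}}
    {s r v : Ordinal.{u} → Ordinal.{u} → Ordinal.{u}} {RS RR RC : ZFSet.{u} → Prop}
    {RP RQ RU RW : ZFSet.{u} → ZFSet.{u} → Prop}
    {R2 R3 RL : ZFSet.{u} → ZFSet.{u} → ZFSet.{u} → Prop}
    (hS : ∀ a : Ordinal.{u}, RS a.toZFSet ↔ SingHOD a)
    (hR : ∀ a : Ordinal.{u}, RR a.toZFSet ↔ κ ≤ a ∧ RegHOD a)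
    (hC : ∀ a : Ordinal.{u}, RC a.toZFSet ↔ a.cof = μ)
    (hP : ∀ a b : Ordinal.{u}, RP a.toZFSet b.toZFSet ↔ b = p a)
    (hQ : ∀ a b : Ordinal.{u}, RQ a.toZFSet b.toZFSet ↔ b < p a)
    (hU : ∀ a b : Ordinal.{u}, RU a.toZFSet b.toZFSet ↔ b = succ a)
    (hW : ∀ a b : Ordinal.{u}, RW a.toZFSet b.toZFSet ↔ v a b ≤ a)
    (h2 : ∀ a b c : Ordinal.{u}, R2 a.toZFSet b.toZFSet c.toZFSet ↔ c = s a b)
    (h3 : ∀ a b c : Ordinal.{u}, R3 a.toZFSet b.toZFSet c.toZFSet ↔ c = r a b)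
    (hL : ∀ a b c : Ordinal.{u}, RL a.toZFSet b.toZFSet c.toZFSet ↔ c < v a b)
    (ν : Ordinal.{u}) (X : ZFSet.{u}) (hX : ∀ z ∈ X, z ∈ ν.toZFSet) :
    MP κ.toZFSet RS RR RC RP RQ RU RW R2 R3 RL ν.toZFSet X ↔
      Ph κ μ p s r v ν {a | a.toZFSet ∈ X} := by
  have ho : ∀ z ∈ X, ∃ a < ν, z = a.toZFSet := by
    intro z hz
    obtain ⟨a, ha, h⟩ := mem_toZFSet_iff.1 (hX z hz)
    exact ⟨a, ha, h.symm⟩
  constructor
  · rintro ⟨-, c2, c3, c4, c5, c6, c7, c8, c9, c10⟩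
    refine ⟨⟨?_, ?_, ?_, ?_, ?_, ?_⟩, ?_, ?_, ?_, ?_⟩
    · intro y hy hyk z hz
      exact c3 _ hy (toZFSet_mem_toZFSet_iff.2 hyk) _ (toZFSet_mem_toZFSet_iff.2 hz)
    · rintro x hx hlim ⟨z, hz, hxz⟩
      have hzν : z < ν := toZFSet_mem_toZFSet_iff.1 (hX _ hz)
      refine c4 _ (toZFSet_mem_toZFSet_iff.2 (hxz.trans_lt hzν)) ((hC x).2 hx) ?_
      intro y hy
      obtain ⟨y, hy', rfl⟩ := mem_toZFSet_iff.1 hy
      obtain ⟨z, hz, hyz, hzx⟩ := hlim y hy'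
      exact ⟨_, hz, toZFSet_mem_toZFSet_iff.2 hyz, toZFSet_mem_toZFSet_iff.2 hzx⟩
    · intro b hb
      exact c5 _ hb _ (toZFSet_mem_toZFSet_iff.2 (lt_succ b)) ((hU _ _).2 rfl)
    · intro a ha hs
      obtain ⟨t, ht, hR'⟩ := c6 _ ha ((hS a).2 hs)
      obtain ⟨t, -, rfl⟩ := ho t ht
      rw [hP] at hR'
      rw [← hR']
      exact ht
    · intro a ha hs i hi hip
      obtain ⟨t, ht, hR'⟩ := c7 _ ha ((hS a).2 hs) _ hi ((hQ _ _).2 hip)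
      obtain ⟨t, -, rfl⟩ := ho t ht
      rw [h2] at hR'
      rw [← hR']
      exact ht
    · intro a ha hs z hz hza
      obtain ⟨t, ht, hR'⟩ := c8 _ ha ((hS a).2 hs) _ hz (toZFSet_mem_toZFSet_iff.2 hza)
      obtain ⟨t, -, rfl⟩ := ho t ht
      rw [h3] at hR'
      rw [← hR']
      exact ht
    · intro z hz
      exact toZFSet_mem_toZFSet_iff.1 (hX _ hz)
    · intro y hy
      obtain ⟨z, hz, hyz⟩ := c2 _ (toZFSet_mem_toZFSet_iff.2 hy)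
      obtain ⟨z, -, rfl⟩ := ho z hz
      exact ⟨z, hz, toZFSet_mem_toZFSet_iff.1 hyz⟩
    · intro a ha hκ hr z hz hza
      exact (hL _ _ _).1 (c9 _ ha ((hR a).2 ⟨hκ, hr⟩) _ hz (toZFSet_mem_toZFSet_iff.2 hza))
    · intro a ha hκ hr y hy
      obtain ⟨hw, h⟩ := c10 _ ha ((hR a).2 ⟨hκ, hr⟩)
      have hya : y < a := hy.trans_le ((hW _ _).1 hw)
      obtain ⟨z, hz, hza, hzy⟩ := h _ (toZFSet_mem_toZFSet_iff.2 hya) ((hL _ _ _).2 hy)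
      obtain ⟨z, -, rfl⟩ := ho z hz
      exact ⟨z, hz, toZFSet_mem_toZFSet_iff.1 hza,
        not_lt.1 fun h => hzy (toZFSet_mem_toZFSet_iff.2 h)⟩
  · intro h
    refine ⟨hX, ?_, ?_, ?_, ?_, ?_, ?_, ?_, ?_, ?_⟩
    · intro y hy
      obtain ⟨y, hy', rfl⟩ := mem_toZFSet_iff.1 hy
      obtain ⟨z, hz, hyz⟩ := h.cf y hy'
      exact ⟨_, hz, toZFSet_mem_toZFSet_iff.2 hyz⟩
    · intro y hy hyk z hz
      obtain ⟨y, -, rfl⟩ := ho y hy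
      obtain ⟨z, hz', rfl⟩ := mem_toZFSet_iff.1 hz
      exact h.cz.ini y hy (toZFSet_mem_toZFSet_iff.1 hyk) z hz'
    · intro x hx hR' hl
      obtain ⟨x, hxν, rfl⟩ := mem_toZFSet_iff.1 hx
      refine h.cz.oc x ((hC x).1 hR') ?_ ?_
      · intro y hy
        obtain ⟨z, hz, hyz, hzx⟩ := hl _ (toZFSet_mem_toZFSet_iff.2 hy)
        obtain ⟨z, -, rfl⟩ := ho z hz
        exact ⟨z, hz, toZFSet_mem_toZFSet_iff.1 hyz, toZFSet_mem_toZFSet_iff.1 hzx⟩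
      · obtain ⟨z, hz, hxz⟩ := h.cf x hxν
        exact ⟨z, hz, hxz.le⟩
    · intro t ht b hb hR'
      obtain ⟨t, -, rfl⟩ := ho t ht
      obtain ⟨b, -, rfl⟩ := mem_toZFSet_iff.1 hb
      have e := (hU _ _).1 hR'
      subst e
      exact h.cz.pr b ht
    · intro a ha hs
      obtain ⟨a, -, rfl⟩ := ho a ha
      exact ⟨_, h.cz.cp a ha ((hS a).1 hs), (hP _ _).2 rfl⟩
    · intro a ha hs i hi hip
      obtain ⟨a, -, rfl⟩ := ho a ha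
      obtain ⟨i, -, rfl⟩ := ho i hi
      exact ⟨_, h.cz.cs a ha ((hS a).1 hs) i hi ((hQ _ _).1 hip), (h2 _ _ _).2 rfl⟩
    · intro a ha hs z hz hza
      obtain ⟨a, -, rfl⟩ := ho a ha
      obtain ⟨z, -, rfl⟩ := ho z hz
      exact ⟨_, h.cz.cr a ha ((hS a).1 hs) z hz (toZFSet_mem_toZFSet_iff.1 hza),
        (h3 _ _ _).2 rfl⟩
    · intro a ha hr z hz hza
      obtain ⟨a, -, rfl⟩ := ho a ha
      obtain ⟨z, -, rfl⟩ := ho z hz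
      obtain ⟨hκ, hr⟩ := (hR a).1 hr
      exact (hL _ _ _).2 (h.vl a ha hκ hr z hz (toZFSet_mem_toZFSet_iff.1 hza))
    · intro a ha hr
      obtain ⟨a, -, rfl⟩ := ho a ha
      obtain ⟨hκ, hr⟩ := (hR a).1 hr
      refine ⟨(hW _ _).2 ?_, ?_⟩
      · by_contra hlt
        obtain ⟨z, -, hza, haz⟩ := h.vu a ha hκ hr a (not_le.1 hlt)
        exact (hza.trans_le haz).false
      · intro y hy hyL
        obtain ⟨y, -, rfl⟩ := mem_toZFSet_iff.1 hy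
        obtain ⟨z, hz, hza, hyz⟩ := h.vu a ha hκ hr y ((hL _ _ _).1 hyL)
        exact ⟨_, hz, toZFSet_mem_toZFSet_iff.2 hza,
          fun h => not_lt.2 hyz (toZFSet_mem_toZFSet_iff.1 h)⟩

theorem dp : T_DP.{u} := by
  intro κ μ p s r v hPS hv
  have dS : DO.{u} fun w => (fun a => SingHOD a) (w 0) := hPS.dg
  have dLim : DO.{u} fun w => IsSuccLimit (w 0) := by
    refine ((DO.gtc 0 0).and (DO.allLt (R := fun b w => ∃ c, b < c ∧ c < w 0) 0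
      (DO.ex (R := fun c w => w 0 < c ∧ c < w 1)
        ((DO.lt 1 0).and (DO.lt 0 2))))).congr fun w => ?_
    rw [Ordinal.isSuccLimit_iff]
    constructor
    · rintro ⟨h0, h1⟩
      refine ⟨pos_iff_ne_zero.2 h0, fun b hb => ⟨succ b, lt_succ b, ?_⟩⟩
      exact h1.succ_lt hb
    · rintro ⟨h0, h1⟩
      refine ⟨pos_iff_ne_zero.1 h0, ?_⟩
      rw [isSuccPrelimit_iff_succ_lt]
      intro b hb
      obtain ⟨c, hbc, hc⟩ := h1 b hb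
      exact (succ_le_of_lt hbc).trans_lt hc
  have dR : DO.{u} fun w => (fun a => κ ≤ a ∧ RegHOD a) (w 0) :=
    (DO.gec 0 κ).and (dLim.and dS.not)
  have dC : DO.{u} fun w => (fun x : Ordinal.{u} => x.cof = μ) (w 0) := by
    refine (DO.sub (R := fun x w => Cf x (w 0)) μ.ord (do_Cf All.la 0 1)).congr fun w => ?_
    show (w 0).cof = μ ↔ (w 0).cof.ord = μ.ord
    rw [Cardinal.ord_inj]
  have dQ : DO.{u} fun w => (fun a i => i < p a) (w 0) (w 1) := by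
    refine (DO.ex (R := fun t w => t = p (w 0) ∧ w 1 < t)
      ((DO.s2 (X := fun b t => t = p b) hPS.dp 1 0).and (DO.lt 2 0))).congr fun w => ?_
    simp
  have dU : DO.{u} fun w => (fun a b => b = succ a) (w 0) (w 1) := by
    refine ((DO.lt 0 1).and (DO.ex (R := fun c w => w 0 < c ∧ c < w 1)
      ((DO.lt 1 0).and (DO.lt 0 2))).not).congr fun w => ?_
    show w 1 = succ (w 0) ↔ w 0 < w 1 ∧ ¬ ∃ c, w 0 < c ∧ c < w 1
    constructor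
    · intro h
      rw [h]
      exact ⟨lt_succ _, fun ⟨c, h1, h2⟩ => not_lt.2 (succ_le_of_lt h1) h2⟩
    · rintro ⟨h1, h2⟩
      refine le_antisymm ?_ (succ_le_of_lt h1)
      by_contra h3
      exact h2 ⟨_, lt_succ _, not_le.1 h3⟩
  have dW : DO.{u} fun w => (fun a b => v a b ≤ a) (w 0) (w 1) := by
    refine (DO.ex (R := fun t w => t = v (w 0) (w 1) ∧ t ≤ w 0)
      ((DO.s3 (X := fun a b t => t = v a b) hv 1 2 0).and (DO.le 0 1))).congr fun w => ?_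
    simp
  have dL : DO.{u} fun w => (fun a b c => c < v a b) (w 0) (w 1) (w 2) := by
    refine (DO.ex (R := fun t w => t = v (w 0) (w 1) ∧ w 2 < t)
      ((DO.s3 (X := fun a b t => t = v a b) hv 1 2 0).and (DO.lt 3 0))).congr fun w => ?_
    simp
  obtain ⟨RS, eS, fS⟩ := rel1 (A := fun a => SingHOD a) dS
  obtain ⟨RR, eR, fR⟩ := rel1 (A := fun a => κ ≤ a ∧ RegHOD a) dR
  obtain ⟨RC, eC, fC⟩ := rel1 (A := fun a => a.cof = μ) dC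
  obtain ⟨RP, eP, fP⟩ := rel2 (A := fun a b => b = p a) hPS.dp
  obtain ⟨RQ, eQ, fQ⟩ := rel2 (A := fun a b => b < p a) dQ
  obtain ⟨RU, eU, fU⟩ := rel2 (A := fun a b => b = succ a) dU
  obtain ⟨RW, eW, fW⟩ := rel2 (A := fun a b => v a b ≤ a) dW
  obtain ⟨R2, e2, f2⟩ := rel3 (A := fun a b c => c = s a b) hPS.ds
  obtain ⟨R3, e3, f3⟩ := rel3 (A := fun a b c => c = r a b) hPS.dr
  obtain ⟨RL, eL, fL⟩ := rel3 (A := fun a b c => c < v a b) dL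
  refine ⟨fun v => v 1 ∈ v 0 ∧
    ∀ X, MP κ.toZFSet RS RR RC RP RQ RU RW R2 R3 RL (v 0) X → v 1 ∈ X, ?_, ?_⟩
  · refine DZ.and (DZ.mem 1 0) (DZ.all (DZ.imp ?_ (DZ.mem 2 0)))
    exact dz_MP κ eS eR eC eP eQ eU eW e2 e3 eL 1 0
  · intro w
    constructor
    · rintro ⟨hz, h⟩
      refine ⟨toZFSet_mem_toZFSet_iff.2 hz, fun X hX => ?_⟩
      exact h _ ((key fS fR fC fP fQ fU fW f2 f3 fL (w 0) X hX.1).1 hX)
    · rintro ⟨hz, h⟩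
      refine ⟨toZFSet_mem_toZFSet_iff.1 hz, fun X hX => ?_⟩
      have hs : {a : Ordinal.{u} | a.toZFSet ∈ os (w 0) X} = X := by
        ext a
        show a.toZFSet ∈ os (w 0) X ↔ _
        rw [ord_mem_os]
        exact ⟨fun h => h.2, fun h => ⟨hX.lt a h, h⟩⟩
      have hsub : ∀ z ∈ os (w 0) X, z ∈ (w 0).toZFSet := by
        intro z hz
        obtain ⟨a, ha, -, rfl⟩ := mem_os.1 hz
        exact toZFSet_mem_toZFSet_iff.2 ha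
      have h5 := h (os (w 0) X)
        ((key fS fR fC fP fQ fU fW f2 f3 fL (w 0) _ hsub).2 (by rw [hs]; exact hX))
      exact (ord_mem_os.1 h5).2

end Pool.Agent.H50.HD.DP
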